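import Pool.Agent.Q78.Stab.Main

/-! A finitely generated subgroup of `PC(S)` which is stably realizable but not realizable. -/

namespace Pool.Agent.Results.MP_e3ce59_an.StablyNotRealizable

/-- There is a finitely generated subgroup of the group of piecewise continuous bijections of the
circle modulo finitely supported permutations which is stably realizable but not realizable. -/
theorem result : ∃ Γ : Subgroup Q78.PCB.PCBow,
    Γ.FG ∧ Q78.Stab.StablyRealizable Γ ∧ ¬ Q78.PCB.Realizable Γ :=
  Q78.Stab.main

end Pool.Agent.Results.MP_e3ce59_an.StablyNotRealizable
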